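import Mathlib

namespace Pool.Agent.Results.MP_17ecd9_gt.Discontinuous

open MeasureTheory Set Filter Topology
open scoped symmDiff Classical

/-- The similarity matrix of a finite subset of a metric space. -/
noncomputable def Z {M : Type} [MetricSpace M] (A : Finset M) : Matrix A A ℝ :=
  Matrix.of fun a b => Real.exp (-dist (a : M) (b : M))

/-- Positive definite metric space. -/
def PosDefSpace (M : Type) [MetricSpace M] : Prop :=
  ∀ A : Finset M, A.Nonempty → (Z A).PosDef

/-- Magnitude of a finite set: the sum of the entries of the inverse similarity matrix. -/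
noncomputable def mag {M : Type} [MetricSpace M] (A : Finset M) : ℝ :=
  ∑ a, ∑ b, (Z A)⁻¹ a b

/-- Magnitudes of the nonempty finite subsets of `K`. -/
def magSet {M : Type} [MetricSpace M] (K : Set M) : Set ℝ :=
  {x | ∃ A : Finset M, A.Nonempty ∧ (A : Set M) ⊆ K ∧ mag A = x}

/-- Magnitude of a compact set. -/
noncomputable def magC {M : Type} [MetricSpace M] (K : Set M) : ℝ := sSup (magSet K)

/-- Tractable metric space. -/
def Tractable (M : Type) [MetricSpace M] : Prop :=
  PosDefSpace M ∧ (∀ K : Set M, IsClosed K → Bornology.IsBounded K → IsCompact K) ∧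
    ∀ (x : M) (r : ℝ), BddAbove (magSet (Metric.closedBall x r))

/-- Continuity of magnitude on nonempty finite subsets for the Hausdorff metric. -/
def ContFin (M : Type) [MetricSpace M] : Prop :=
  ∀ A : Finset M, A.Nonempty → ∀ ε > 0, ∃ δ > 0, ∀ B : Finset M, B.Nonempty →
    Metric.hausdorffDist (A : Set M) (B : Set M) < δ → |mag A - mag B| < ε

/-- Continuity of magnitude on nonempty compact subsets for the Hausdorff metric. -/
def ContCmp (M : Type) [MetricSpace M] : Prop :=
  ∀ K : Set M, K.Nonempty → IsCompact K → ∀ ε > 0, ∃ δ > 0, ∀ L : Set M, L.Nonempty →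
    IsCompact L → Metric.hausdorffDist K L < δ → |magC K - magC L| < ε

/-- The space `L_1([0,1], ℝ)`. -/
abbrev L1 : Type := Lp ℝ 1 ((volume : Measure ℝ).restrict (Icc 0 1))

lemma psd_ker {ι β : Type} [Fintype ι] [Fintype β] [DecidableEq β] (ψ : ι → β) (w : ι → ℝ) :
    0 ≤ ∑ a, ∑ b, w a * w b * (if ψ a = ψ b then 1 else 0) := by
  have h : ∑ a, ∑ b, w a * w b * (if ψ a = ψ b then (1:ℝ) else 0)
      = ∑ c, (∑ a, if ψ a = c then w a else 0) ^ 2 := by
    simp only [sq, Finset.sum_mul_sum]
    symm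
    rw [Finset.sum_comm]
    refine Finset.sum_congr rfl fun a _ => ?_
    rw [Finset.sum_comm]
    refine Finset.sum_congr rfl fun b _ => ?_
    rw [Finset.sum_eq_single (ψ a)]
    · by_cases hab : ψ a = ψ b
      · simp [hab]
      · have : ¬ ψ b = ψ a := fun h => hab h.symm
        simp [hab, this]
    · intro c _ hc
      have : ¬ ψ a = c := fun h => hc h.symm
      simp [this]
    · simp
  rw [h]
  exact Finset.sum_nonneg fun c _ => sq_nonneg _

lemma expand {ι : Type} [Fintype ι] (m : (ι → Bool) → ℝ) (a b : ι) :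
    Real.exp (-∑ σ ∈ Finset.univ.filter (fun σ : ι → Bool => σ a ≠ σ b), m σ)
      = ∑ t ∈ (Finset.univ : Finset (ι → Bool)).powerset,
        ((∏ σ ∈ t, (1 - Real.exp (-m σ))) * ∏ σ ∈ Finset.univ \ t, Real.exp (-m σ)) *
          (if (fun σ : ι → Bool => if σ ∈ t then σ a else false)
            = (fun σ : ι → Bool => if σ ∈ t then σ b else false) then 1 else 0) := by
  have h1 : Real.exp (-∑ σ ∈ Finset.univ.filter (fun σ : ι → Bool => σ a ≠ σ b), m σ)
      = ∏ σ : ι → Bool, ((1 - Real.exp (-m σ)) * (if σ a = σ b then 1 else 0)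
        + Real.exp (-m σ)) := by
    rw [← Finset.sum_neg_distrib, Real.exp_sum, Finset.prod_filter]
    refine Finset.prod_congr rfl fun σ _ => ?_
    by_cases h : σ a = σ b <;> simp [h]
  rw [h1, Finset.prod_add]
  refine Finset.sum_congr rfl fun t _ => ?_
  rw [Finset.prod_mul_distrib]
  have h2 : (∏ σ ∈ t, (if σ a = σ b then (1:ℝ) else 0)) =
      (if (fun σ : ι → Bool => if σ ∈ t then σ a else false)
            = (fun σ : ι → Bool => if σ ∈ t then σ b else false) then 1 else 0) := by
    by_cases h : ∀ σ ∈ t, σ a = σ b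
    · rw [if_pos, Finset.prod_eq_one]
      · intro σ hσ; simp [h σ hσ]
      · funext σ
        by_cases hσ : σ ∈ t
        · simp [hσ, h σ hσ]
        · simp [hσ]
    · push Not at h
      obtain ⟨σ, hσ, hne⟩ := h
      rw [if_neg, Finset.prod_eq_zero hσ]
      · simp [hne]
      · intro h
        have := congrFun h σ
        simp [hσ] at this
        exact hne this
  rw [h2]; ring

lemma key {ι α : Type} [Fintype ι] [MeasurableSpace α] (μ : Measure α) [IsProbabilityMeasure μ]
    (S : ι → Set α) (hS : ∀ a, MeasurableSet (S a)) (w : ι → ℝ) :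
    Real.exp (-1) * (∑ a, w a) ^ 2 ≤ ∑ a, ∑ b, w a * w b * Real.exp (-μ.real (S a ∆ S b)) ∧
    ((∀ a b, μ.real (S a ∆ S b) = 0 → a = b) →
      ∃ c > 0, c * ∑ a, w a ^ 2 ≤ ∑ a, ∑ b, w a * w b * Real.exp (-μ.real (S a ∆ S b))) := by
  set φ : α → (ι → Bool) := fun x a => decide (x ∈ S a) with hφ
  have hφm : ∀ σ : ι → Bool, MeasurableSet (φ ⁻¹' {σ}) := by
    intro σ
    have : φ ⁻¹' {σ} = ⋂ a, (if σ a = true then S a else (S a)ᶜ) := by
      ext x
      simp only [mem_preimage, mem_singleton_iff, mem_iInter, hφ]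
      constructor
      · intro h a
        have := congrFun h a
        by_cases hσ : σ a = true
        · rw [if_pos hσ]; rw [hσ] at this; simpa using this
        · rw [if_neg hσ]
          have h' : σ a = false := by simpa using hσ
          rw [h'] at this; simpa using this
      · intro h
        funext a
        have := h a
        by_cases hσ : σ a = true
        · rw [if_pos hσ] at this; rw [hσ]; simpa using this
        · rw [if_neg hσ] at this
          have h' : σ a = false := by simpa using hσ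
          rw [h']; simpa using this
    rw [this]
    refine MeasurableSet.iInter fun a => ?_
    split_ifs
    · exact hS a
    · exact (hS a).compl
  set m : (ι → Bool) → ℝ := fun σ => μ.real (φ ⁻¹' {σ}) with hm
  have hm0 : ∀ σ, 0 ≤ m σ := fun σ => measureReal_nonneg
  have hd : ∀ a b, μ.real (S a ∆ S b)
      = ∑ σ ∈ Finset.univ.filter (fun σ : ι → Bool => σ a ≠ σ b), m σ := by
    intro a b
    rw [hm, sum_measureReal_preimage_singleton _ (fun σ _ => hφm σ)]
    congr 1
    ext x
    simp only [mem_symmDiff, Finset.coe_filter, Finset.mem_univ, true_and, mem_preimage,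
      Set.mem_ofPred_eq, hφ]
    by_cases h1 : x ∈ S a <;> by_cases h2 : x ∈ S b <;> simp [h1, h2]
  have htot : ∑ σ, m σ = 1 := by
    rw [hm, sum_measureReal_preimage_singleton _ (fun σ _ => hφm σ)]
    simp
  set p : Finset (ι → Bool) → ℝ := fun t =>
    (∏ σ ∈ t, (1 - Real.exp (-m σ))) * ∏ σ ∈ Finset.univ \ t, Real.exp (-m σ) with hp
  set K : Finset (ι → Bool) → ℝ := fun t => ∑ a, ∑ b, w a * w b *
    (if (fun σ : ι → Bool => if σ ∈ t then σ a else false)
            = (fun σ : ι → Bool => if σ ∈ t then σ b else false) then 1 else 0) with hK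
  have hK0 : ∀ t, 0 ≤ K t := fun t =>
    psd_ker (fun a => (fun σ : ι → Bool => if σ ∈ t then σ a else false)) w
  have hp0 : ∀ t, 0 ≤ p t := fun t => by
    refine mul_nonneg (Finset.prod_nonneg fun σ _ => ?_) (Finset.prod_nonneg fun σ _ => ?_)
    · have := Real.exp_le_one_iff.mpr (neg_nonpos.mpr (hm0 σ)); linarith
    · exact (Real.exp_pos _).le
  have hQ : ∑ a, ∑ b, w a * w b * Real.exp (-μ.real (S a ∆ S b))
      = ∑ t ∈ (Finset.univ : Finset (ι → Bool)).powerset, p t * K t := by
    simp only [hd, expand, hK, Finset.mul_sum]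
    symm
    rw [Finset.sum_comm]
    refine Finset.sum_congr rfl fun a _ => ?_
    rw [Finset.sum_comm]
    refine Finset.sum_congr rfl fun b _ => ?_
    refine Finset.sum_congr rfl fun t _ => ?_
    rw [hp]; ring
  have hle : ∀ t, p t * K t ≤ ∑ a, ∑ b, w a * w b * Real.exp (-μ.real (S a ∆ S b)) := by
    intro t
    rw [hQ]
    exact Finset.single_le_sum (f := fun t => p t * K t)
      (fun t _ => mul_nonneg (hp0 t) (hK0 t)) (by simp)
  constructor
  · have h := hle ∅
    have h1 : p ∅ = Real.exp (-1) := by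
      simp only [hp, Finset.prod_empty, Finset.sdiff_empty, one_mul]
      rw [← Real.exp_sum, Finset.sum_neg_distrib, htot]
    have h2 : K ∅ = (∑ a, w a) ^ 2 := by
      simp only [hK, sq, Finset.sum_mul_sum]
      simp
    rwa [h1, h2] at h
  · intro hsep
    set t0 : Finset (ι → Bool) := Finset.univ.filter (fun σ => 0 < m σ) with ht0
    refine ⟨p t0, ?_, ?_⟩
    · refine mul_pos (Finset.prod_pos fun σ hσ => ?_) (Finset.prod_pos fun σ _ => Real.exp_pos _)
      have h0 : 0 < m σ := (Finset.mem_filter.mp hσ).2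
      have := Real.exp_lt_one_iff.mpr (neg_lt_zero.mpr h0); linarith
    · have h2 : K t0 = ∑ a, w a ^ 2 := by
        simp only [hK]
        refine Finset.sum_congr rfl fun a _ => ?_
        rw [Finset.sum_eq_single a]
        · simp [sq]
        · intro b _ hb
          rw [if_neg, mul_zero]
          intro h
          apply hb
          symm
          apply hsep
          rw [hd]
          refine Finset.sum_eq_zero fun σ hσ => ?_
          have hne : σ a ≠ σ b := (Finset.mem_filter.mp hσ).2
          by_contra hm'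
          have hpos : σ ∈ t0 := by
            rw [ht0]; simp only [Finset.mem_filter, Finset.mem_univ, true_and]
            exact lt_of_le_of_ne (hm0 σ) (Ne.symm hm')
          have := congrFun h σ
          simp only [hpos, if_true] at this
          exact hne this
        · simp
      rw [← h2]; exact hle t0

lemma quad_eq {M : Type} [MetricSpace M] (A : Finset M) (w : A → ℝ) :
    dotProduct w ((Z A).mulVec w) = ∑ a, ∑ b, w a * w b * Real.exp (-dist (a : M) (b : M)) := by
  simp only [dotProduct, Matrix.mulVec, Z, Matrix.of_apply, Finset.mul_sum]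
  refine Finset.sum_congr rfl fun a _ => Finset.sum_congr rfl fun b _ => by ring

lemma weight {M : Type} [MetricSpace M] (A : Finset M) (h : (Z A).PosDef) :
    ∃ v : A → ℝ, (Z A).mulVec v = (fun _ => 1) ∧ mag A = ∑ a, v a := by
  refine ⟨((Z A)⁻¹).mulVec (fun _ => 1), ?_, ?_⟩
  · rw [Matrix.mulVec_mulVec, Matrix.mul_nonsing_inv _ ((Matrix.isUnit_iff_isUnit_det _).mp h.isUnit),
      Matrix.one_mulVec]
  · simp [mag, Matrix.mulVec, dotProduct]

lemma mag_ge {M : Type} [MetricSpace M] (A : Finset M) (h : (Z A).PosDef) (w : A → ℝ) :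
    2 * ∑ a, w a - ∑ a, ∑ b, w a * w b * Real.exp (-dist (a : M) (b : M)) ≤ mag A := by
  obtain ⟨v, hv, hm⟩ := weight A h
  have h0 := h.posSemidef.dotProduct_mulVec_nonneg (w - v)
  rw [star_trivial, quad_eq] at h0
  have hrow : ∀ a : A, ∑ b : A, Real.exp (-dist (a : M) (b : M)) * v b = 1 := by
    intro a
    have := congrFun hv a
    simpa [Matrix.mulVec, dotProduct, Z] using this
  have h1 : ∀ u : A → ℝ, ∑ a, ∑ b, u a * v b * Real.exp (-dist (a : M) (b : M)) = ∑ a, u a := by
    intro u
    refine Finset.sum_congr rfl fun a _ => ?_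
    have : ∑ b : A, u a * v b * Real.exp (-dist (a : M) (b : M))
        = u a * ∑ b : A, Real.exp (-dist (a : M) (b : M)) * v b := by
      rw [Finset.mul_sum]; exact Finset.sum_congr rfl fun b _ => by ring
    rw [this, hrow, mul_one]
  have h2 : ∑ a, ∑ b, v a * w b * Real.exp (-dist (a : M) (b : M)) = ∑ a, w a := by
    rw [Finset.sum_comm, ← h1 w]
    refine Finset.sum_congr rfl fun a _ => Finset.sum_congr rfl fun b _ => ?_
    rw [dist_comm]; ring
  have h3 : ∑ a, ∑ b, (w - v) a * (w - v) b * Real.exp (-dist (a : M) (b : M))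
      = ∑ a, ∑ b, w a * w b * Real.exp (-dist (a : M) (b : M))
        - ∑ a, ∑ b, w a * v b * Real.exp (-dist (a : M) (b : M))
        - ∑ a, ∑ b, v a * w b * Real.exp (-dist (a : M) (b : M))
        + ∑ a, ∑ b, v a * v b * Real.exp (-dist (a : M) (b : M)) := by
    simp only [← Finset.sum_sub_distrib, ← Finset.sum_add_distrib, Pi.sub_apply]
    refine Finset.sum_congr rfl fun a _ => Finset.sum_congr rfl fun b _ => by ring
  rw [h3, h1 w, h2, h1 v] at h0
  rw [hm]; linarith

lemma mag_le {M : Type} [MetricSpace M] (A : Finset M) (h : (Z A).PosDef) (c : ℝ) (hc : 0 < c)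
    (hq : ∀ w : A → ℝ, c * (∑ a, w a) ^ 2
      ≤ ∑ a, ∑ b, w a * w b * Real.exp (-dist (a : M) (b : M))) : mag A ≤ 1 / c := by
  obtain ⟨v, hv, hm⟩ := weight A h
  have h0 := hq v
  rw [← quad_eq, hv] at h0
  have h1 : dotProduct v (fun _ => (1:ℝ)) = ∑ a, v a := by simp [dotProduct]
  rw [h1, ← hm] at h0
  rw [le_div_iff₀ hc]
  by_contra hcon
  push Not at hcon
  have hpos : 0 < mag A := by
    by_contra hn
    push Not at hn
    nlinarith
  nlinarith

lemma mag_ge' {M ι : Type} [MetricSpace M] [Fintype ι] (A : Finset M) (h : (Z A).PosDef)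
    (f : ι → M) (hf : ∀ i, f i ∈ A) (u : ι → ℝ) :
    2 * ∑ i, u i - ∑ i, ∑ j, u i * u j * Real.exp (-dist (f i) (f j)) ≤ mag A := by
  set g : ι → A := fun i => ⟨f i, hf i⟩ with hg
  have h0 := mag_ge A h (fun a => ∑ i, if g i = a then u i else 0)
  have h1 : ∑ a : A, ∑ i, (if g i = a then u i else 0) = ∑ i, u i := by
    rw [Finset.sum_comm]; simp
  have h2 : ∑ a : A, ∑ b : A, (∑ i, if g i = a then u i else 0) * (∑ i, if g i = b then u i else 0)
      * Real.exp (-dist (a : M) (b : M))
      = ∑ i, ∑ j, u i * u j * Real.exp (-dist (f i) (f j)) := by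
    have e1 : ∀ a b : A, (∑ i, if g i = a then u i else 0) * (∑ i, if g i = b then u i else 0)
        * Real.exp (-dist (a : M) (b : M)) = ∑ i, ∑ j, (if g i = a then
          (if g j = b then u i * u j * Real.exp (-dist (a : M) (b : M)) else 0) else 0) := by
      intro a b
      rw [Finset.sum_mul_sum, Finset.sum_mul]
      refine Finset.sum_congr rfl fun i _ => ?_
      rw [Finset.sum_mul]
      refine Finset.sum_congr rfl fun j _ => ?_
      split_ifs <;> simp
    simp only [e1]
    have e2 : ∀ a : A, ∑ b : A, ∑ i, ∑ j, (if g i = a then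
          (if g j = b then u i * u j * Real.exp (-dist (a : M) (b : M)) else 0) else 0)
        = ∑ i, ∑ j, (if g i = a then u i * u j * Real.exp (-dist (a : M) (f j)) else 0) := by
      intro a
      rw [Finset.sum_comm]
      refine Finset.sum_congr rfl fun i _ => ?_
      rw [Finset.sum_comm]
      refine Finset.sum_congr rfl fun j _ => ?_
      split_ifs
      · rw [Finset.sum_ite_eq]; simp [hg]
      · simp
    simp only [e2]
    rw [Finset.sum_comm]
    refine Finset.sum_congr rfl fun i _ => ?_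
    rw [Finset.sum_comm]
    refine Finset.sum_congr rfl fun j _ => ?_
    rw [Finset.sum_ite_eq]; simp [hg]
  rw [h1, h2] at h0
  exact h0

lemma mag_single {M : Type} [MetricSpace M] (x : M) (h : (Z ({x} : Finset M)).PosDef) :
    mag ({x} : Finset M) = 1 := by
  obtain ⟨v, hv, hm⟩ := weight _ h
  have := congrFun hv ⟨x, by simp⟩
  rw [hm]
  simp only [Matrix.mulVec, dotProduct, Z, Matrix.of_apply] at this
  rw [← this]
  refine Finset.sum_congr rfl fun b _ => ?_
  have hb : (b : M) = x := Finset.mem_singleton.mp b.2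
  simp [hb]

noncomputable abbrev μ0 : Measure ℝ := (volume : Measure ℝ).restrict (Icc 0 1)

instance : IsProbabilityMeasure μ0 := ⟨by simp [μ0]⟩

noncomputable def ind (s : Set ℝ) (hs : MeasurableSet s) : L1 :=
  indicatorConstLp 1 hs (measure_ne_top μ0 s) (1 : ℝ)

lemma dist_ind (s t : Set ℝ) (hs : MeasurableSet s) (ht : MeasurableSet t) :
    dist (ind s hs) (ind t ht) = μ0.real (s ∆ t) := by
  unfold ind
  rw [dist_indicatorConstLp_eq_norm, norm_indicatorConstLp (by simp) (by simp)]
  simp

/-- The interval `[k/(n+1), (k+1)/(n+1))`. -/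
def I (n k : ℕ) : Set ℝ := Ico ((k : ℝ) / (n + 1)) ((k + 1 : ℝ) / (n + 1))

lemma I_meas (n k : ℕ) : MeasurableSet (I n k) := measurableSet_Ico

lemma I_vol (n k : ℕ) (hk : k < n + 1) : μ0.real (I n k) = 1 / (n + 1) := by
  have hn : (0:ℝ) < n + 1 := by positivity
  have hsub : I n k ⊆ Icc 0 1 := by
    intro x hx
    refine ⟨le_trans (by positivity) hx.1, le_trans hx.2.le ?_⟩
    rw [div_le_one hn]
    exact_mod_cast hk
  rw [measureReal_def, Measure.restrict_apply (I_meas n k), inter_eq_left.mpr hsub, I,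
    Real.volume_Ico, ENNReal.toReal_ofReal]
  · ring
  · rw [← sub_div]; simp; positivity

lemma I_disj (n k l : ℕ) (h : k ≠ l) : Disjoint (I n k) (I n l) := by
  have hn : (0:ℝ) < n + 1 := by positivity
  rw [Set.disjoint_left]
  intro x hx hy
  have h1 : (k : ℝ) / (n + 1) < (l + 1) / (n + 1) := lt_of_le_of_lt hx.1 hy.2
  have h2 : (l : ℝ) / (n + 1) < (k + 1) / (n + 1) := lt_of_le_of_lt hy.1 hx.2
  rw [div_lt_div_iff_of_pos_right hn] at h1 h2
  have h1' : k < l + 1 := by exact_mod_cast h1
  have h2' : l < k + 1 := by exact_mod_cast h2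
  omega

noncomputable def P (x : Σ n : ℕ, Fin (n + 1)) : L1 := ind (I x.1 x.2) (I_meas _ _)

noncomputable def O : L1 := ind ∅ MeasurableSet.empty

def T : Set L1 := insert O (range P)

lemma dist_PO (x : Σ n : ℕ, Fin (n + 1)) : dist (P x) O = 1 / (x.1 + 1) := by
  rw [P, O, dist_ind, ← I_vol x.1 x.2 x.2.2]
  congr 1
  simp [← Set.bot_eq_empty]

lemma dist_PP (n : ℕ) (k l : Fin (n + 1)) (h : k ≠ l) :
    dist (P ⟨n, k⟩) (P ⟨n, l⟩) = 1 / (n + 1) + 1 / (n + 1) := by
  have hd := I_disj n k l (fun h' => h (Fin.ext h'))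
  have e : I n k ⊔ I n l = I n k ∪ I n l := rfl
  rw [P, P, dist_ind, hd.symmDiff_eq_sup, e,
    measureReal_union hd (I_meas _ _), I_vol n k k.2, I_vol n l l.2]

lemma T_compact : IsCompact T := by
  refine Filter.Tendsto.isCompact_insert_range_of_cofinite ?_
  rw [Metric.tendsto_nhds]
  intro ε hε
  obtain ⟨N, hN⟩ := exists_nat_one_div_lt hε
  rw [Filter.eventually_cofinite]
  have hfin : (⋃ n ∈ Finset.range N, range (fun k : Fin (n + 1) =>
      (⟨n, k⟩ : Σ n : ℕ, Fin (n + 1)))).Finite :=
    Set.Finite.biUnion (Finset.finite_toSet _) (fun n _ => finite_range _)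
  refine hfin.subset ?_
  rintro ⟨n, k⟩ hx
  simp only [Set.mem_ofPred_eq, dist_PO, not_lt] at hx
  simp only [mem_iUnion, Finset.mem_range]
  refine ⟨n, ?_, k, rfl⟩
  by_contra hn
  push Not at hn
  have : (1:ℝ) / (n + 1) ≤ 1 / (N + 1) := by
    apply one_div_le_one_div_of_le (by positivity)
    have : (N:ℝ) ≤ n := by exact_mod_cast hn
    linarith
  linarith

lemma T_ind (x : T) : ∃ s : Set ℝ, ∃ hs : MeasurableSet s, (x : L1) = ind s hs := by
  obtain ⟨x, rfl | ⟨y, rfl⟩⟩ := x
  · exact ⟨∅, MeasurableSet.empty, rfl⟩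
  · exact ⟨_, I_meas _ _, rfl⟩

lemma T_key (A : Finset T) (w : A → ℝ) :
    Real.exp (-1) * (∑ a, w a) ^ 2 ≤ ∑ a, ∑ b, w a * w b * Real.exp (-dist (a : T) (b : T)) ∧
      ∃ c > 0, c * ∑ a, w a ^ 2 ≤ ∑ a, ∑ b, w a * w b * Real.exp (-dist (a : T) (b : T)) := by
  choose S hS hx using T_ind
  have hd : ∀ a b : A, dist (a : T) (b : T) = μ0.real (S a ∆ S b) := by
    intro a b
    rw [Subtype.dist_eq, hx, hx b, dist_ind]
  have h := key μ0 (fun a : A => S a) (fun a => hS a) w
  simp only [hd]
  refine ⟨h.1, h.2 fun a b hab => ?_⟩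
  rw [← hd, dist_eq_zero] at hab
  exact Subtype.ext hab

lemma T_pd (A : Finset T) : (Z A).PosDef := by
  refine Matrix.PosDef.of_dotProduct_mulVec_pos ?_ fun w hw => ?_
  · ext a b
    simp [Z, dist_comm]
  · rw [star_trivial, quad_eq]
    obtain ⟨c, hc, h⟩ := (T_key A w).2
    refine lt_of_lt_of_le (mul_pos hc ?_) h
    obtain ⟨a, ha⟩ := Function.ne_iff.mp hw
    refine Finset.sum_pos' (fun a _ => sq_nonneg _) ⟨a, Finset.mem_univ _, ?_⟩
    exact pow_pos (abs_pos.mpr ha) 2 |>.trans_eq (sq_abs _)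

lemma T_bdd (K : Set T) : BddAbove (magSet K) := by
  refine ⟨1 / Real.exp (-1), ?_⟩
  rintro x ⟨A, _, _, rfl⟩
  exact mag_le A (T_pd A) _ (Real.exp_pos _) fun w => (T_key A w).1

noncomputable def O' : T := ⟨O, Or.inl rfl⟩

noncomputable def st (n : ℕ) : Option (Fin (n + 1)) → T
  | none => O'
  | some k => ⟨P ⟨n, k⟩, Or.inr ⟨_, rfl⟩⟩

noncomputable def A (n : ℕ) : Finset T := Finset.univ.image (st n)

lemma A_ge (n : ℕ) : 5 / 4 ≤ mag (A n) := by
  set r : ℝ := 1 / (n + 1) with hr
  set q : ℝ := Real.exp (-r) with hq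
  set M : ℝ := n + 1 with hM
  have h := mag_ge' (A n) (T_pd _) (st n) (fun i => Finset.mem_image_of_mem _ (Finset.mem_univ i))
    (fun i => i.elim (1 - M * q / 2) (fun _ => 1 / 2))
  have d1 : ∀ k, dist (st n (some k)) (st n none) = r := fun k => by
    rw [Subtype.dist_eq]; exact dist_PO ⟨n, k⟩
  have d2 : ∀ k, dist (st n none) (st n (some k)) = r := fun k => by rw [dist_comm, d1]
  have d3 : ∀ k l, Real.exp (-dist (st n (some k)) (st n (some l)))
      = q ^ 2 + (if k = l then 1 - q ^ 2 else 0) := fun k l => by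
    by_cases hkl : k = l
    · simp [hkl]
    · rw [if_neg hkl, Subtype.dist_eq]
      have : dist ((st n (some k) : T) : L1) (st n (some l) : T) = r + r := dist_PP n k l hkl
      rw [this, neg_add, Real.exp_add]; ring
  simp only [Fintype.sum_option, Option.elim, d1, d2, d3, dist_self, neg_zero, Real.exp_zero,
    ← hq, mul_add, Finset.sum_add_distrib, Finset.sum_const, Finset.card_univ, Fintype.card_fin,
    nsmul_eq_mul, mul_ite, mul_zero, Finset.sum_ite_eq, Finset.mem_univ, if_true] at h
  have hc : ((n + 1 : ℕ) : ℝ) = M := by rw [hM]; push_cast; ring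
  rw [hc] at h
  have hM1 : 1 ≤ M := by rw [hM]; have : (0:ℝ) ≤ n := Nat.cast_nonneg n; linarith
  have hq0 : 0 < q := Real.exp_pos _
  have hrM : r * M = 1 := by rw [hr]; field_simp
  have hr0 : 0 < r := by rw [hr]; positivity
  have hq1 : q * (1 + r) ≤ 1 := by
    have h1 : r + 1 ≤ Real.exp r := Real.add_one_le_exp r
    have h2 : q * Real.exp r = 1 := by rw [hq, ← Real.exp_add]; simp
    nlinarith
  have hq2 : q ≤ 1 := by nlinarith
  have hq3 : 1 / 2 ≤ M * (1 - q) := by
    have h1 : q * (M + 1) ≤ M := by nlinarith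
    nlinarith
  have hq4 : 0 ≤ M * (1 - q) * (1 - q) := by
    have : 0 ≤ 1 - q := by linarith
    positivity
  nlinarith

lemma A_dist (n : ℕ) :
    Metric.hausdorffDist ((({O'} : Finset T)) : Set T) (A n : Set T) ≤ 1 / (n + 1) := by
  refine Metric.hausdorffDist_le_of_mem_dist (by positivity) ?_ ?_
  · intro x hx
    have hx' : x = O' := by simpa using hx
    refine ⟨O', ?_, by rw [hx', dist_self]; positivity⟩
    simp only [A, Finset.coe_image, Finset.coe_univ, image_univ]
    exact ⟨none, rfl⟩
  · intro x hx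
    simp only [A, Finset.coe_image, Finset.coe_univ, image_univ] at hx
    obtain ⟨i, rfl⟩ := hx
    refine ⟨O', by simp, ?_⟩
    cases i with
    | none => rw [st, dist_self]; positivity
    | some k => rw [Subtype.dist_eq]; exact (dist_PO ⟨n, k⟩).le

lemma A_ne (n : ℕ) : (A n).Nonempty := ⟨st n none, Finset.mem_image_of_mem _ (Finset.mem_univ _)⟩

theorem result : ∃ T : Set L1, Tractable T ∧ ¬ ContFin T ∧ ¬ ContCmp T := by
  refine ⟨T, ⟨fun A _ => T_pd A, fun K hK _ => ?_, fun x r => T_bdd _⟩, ?_, ?_⟩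
  · have : CompactSpace T := isCompact_iff_compactSpace.mp T_compact
    exact hK.isCompact
  · intro h
    obtain ⟨δ, hδ, h⟩ := h {O'} (by simp) (1 / 4) (by norm_num)
    obtain ⟨n, hn⟩ := exists_nat_one_div_lt hδ
    have h1 := h (A n) (A_ne n) (lt_of_le_of_lt (A_dist n) hn)
    rw [mag_single _ (T_pd _)] at h1
    have := A_ge n
    rw [abs_lt] at h1
    linarith
  · intro h
    obtain ⟨δ, hδ, h⟩ := h (({O'} : Finset T) : Set T) (by simp) (Finset.finite_toSet _).isCompact
      (1 / 4) (by norm_num)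
    obtain ⟨n, hn⟩ := exists_nat_one_div_lt hδ
    have h1 := h (A n) (A_ne n) (Finset.finite_toSet _).isCompact (lt_of_le_of_lt (A_dist n) hn)
    have h2 : magC (({O'} : Finset T) : Set T) = 1 := by
      have : magSet (({O'} : Finset T) : Set T) = {1} := by
        ext x
        simp only [magSet, Set.mem_ofPred_eq, mem_singleton_iff]
        constructor
        · rintro ⟨B, hB, hsub, rfl⟩
          have : B = {O'} := by
            rcases Finset.subset_singleton_iff.mp (Finset.coe_subset.mp hsub) with h | h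
            · exact absurd h hB.ne_empty
            · exact h
          rw [this, mag_single _ (T_pd _)]
        · rintro rfl
          exact ⟨{O'}, by simp, subset_rfl, mag_single _ (T_pd _)⟩
      rw [magC, this, csSup_singleton]
    have h3 : mag (A n) ≤ magC (A n : Set T) := le_csSup (T_bdd _) ⟨A n, A_ne n, subset_rfl, rfl⟩
    have := A_ge n
    rw [h2, abs_lt] at h1
    linarith

end Pool.Agent.Results.MP_17ecd9_gt.Discontinuous
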